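import Mathlib
import Pool.Agent.Q197.SG.Grp

set_option autoImplicit false

/-!
# Anticanonical degrees: groups of points of nearly equal multiplicities, and simple points

Let `k + r M = 9`, `N = M + 2` or `N = M + 4`. We consider the classes `(3 h; h ^ k, w_1, …, w_r, 1 ^ p)`, where each `w_j` is a
group of `N` points of multiplicities `b_j` and `b_j + 1`, and their analogues of smaller or larger degree.
-/

namespace Pool.Agent.Results.MP_0f5763_ag.AnticanonicalGroups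

open MvPolynomial

/-- The multiplicities: `h` at `k` points, the `r` groups `w j`, and `1` at `p` points. -/
def mult {k r N : ℕ} (h : ℕ) (w : Fin r → Fin N → ℕ) (p : ℕ) : Fin (k + r * N + p) → ℕ :=
  Fin.append (Fin.append (fun _ : Fin k => h) (fun i : Fin (r * N) => w i.divNat i.modNat)) (fun _ : Fin p => 1)

/-- The forms of degree `d` with multiplicity at least `v i` at the point `(P i 0 : P i 1 : 1)` for all
`i`. -/
noncomputable def forms {n : ℕ} (P : Fin n → Fin 2 → ℂ) (v : Fin n → ℕ) (d : ℕ) :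
    Submodule ℂ (MvPolynomial (Fin 3) ℂ) :=
  homogeneousSubmodule (Fin 3) ℂ d ⊓
    Submodule.restrictScalars ℂ
      (⨅ i : Fin n,
        (Ideal.span
          ({X 0 - C (P i 0) * X 2, X 1 - C (P i 1) * X 2} : Set (MvPolynomial (Fin 3) ℂ))) ^ (v i))

theorem sum_mult {k r N : ℕ} (h : ℕ) (w : Fin r → Fin N → ℕ) (p : ℕ) :
    ∑ i, (mult (k := k) h w p i + 1).choose 2 =
      k * (h + 1).choose 2 + ∑ j, ∑ i, (w j i + 1).choose 2 + p := by
  have h1 : ∑ i, (mult (k := k) h w p i + 1).choose 2 =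
      ∑ x, (mult (k := k) h w p (Pool.Agent.Q197.SG.idxp k r N p x) + 1).choose 2 :=
    (Equiv.sum_comp (Pool.Agent.Q197.SG.idxp k r N p) _).symm
  have h2 : ∀ x, mult (k := k) h w p (Pool.Agent.Q197.SG.idxp k r N p x) =
      Sum.elim (Sum.elim (fun p : Fin r × Fin N => w p.1 p.2) (fun _ : Fin k => h)) (fun _ : Fin p => 1) x :=
    fun x => Pool.Agent.Q197.SG.allp_idxp h w p x
  rw [h1]
  simp_rw [h2]
  rw [Fintype.sum_sum_type, Fintype.sum_sum_type, Fintype.sum_prod_type]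
  simp
  ring

/-- the two cases together -/
theorem key {M N r k h : ℕ} (hM : 1 ≤ M) (hN : N = M + 2 ∨ N = M + 4) (hk : (r + 1) * M + k = 9)
    (b : Fin (r + 1) → ℕ) (w : Fin (r + 1) → Fin N → ℕ) (hw : ∀ j i, w j i = b j ∨ w j i = b j + 1) (p : ℕ) :
    ∃ F : MvPolynomial (Fin (k + (r + 1) * N + p) × Fin 2) ℚ, F ≠ 0 ∧
      ∀ P : Fin (k + (r + 1) * N + p) → Fin 2 → ℂ,
      MvPolynomial.aeval (fun ij : Fin (k + (r + 1) * N + p) × Fin 2 => P ij.1 ij.2) F ≠ 0 → ∀ d : ℕ,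
        ((∀ j, N + 2 * ∑ i, (w j i : ℝ) ≤ √((M : ℝ) * (N : ℕ)) * (2 * h + 1)) → 3 * h ≤ d →
          Pool.Agent.H932R3.ExpDim ℂ (mult h w p) P d) ∧
        ((∀ j, √((M : ℝ) * (N : ℕ)) * (2 * h + 1) < N + 2 * ∑ i, (w j i : ℝ)) → d ≤ 3 * h →
          Pool.Agent.H932R3.ExpDim ℂ (mult h w p) P d ∨
            (p = 0 ∧ Pool.Agent.Q197.SG.dimL ℂ (mult h w p) P d = 1 ∧
            (d + 2).choose 2 ≤ ∑ i, (mult (k := k) h w p i + 1).choose 2)) := by
  have e : mult (k := k) h w p = Pool.Agent.Q197.SG.allp h w p := rfl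
  rw [e]
  rcases hN with h0 | h0
  · subst h0
    obtain ⟨h1, h2⟩ := Pool.Agent.Q197.SG.slN hM
    obtain ⟨F, hF, hF'⟩ := Pool.Agent.Q197.SG.grp_anti (k := k) (h := h) h1 h2 hk w b hw p
    exact ⟨F, hF, fun P hP => hF' P hP⟩
  · subst h0
    obtain ⟨h1, h2⟩ := Pool.Agent.Q197.SG.slM hM
    obtain ⟨F, hF, hF'⟩ := Pool.Agent.Q197.SG.grp_anti (k := k) (h := h) h1 h2 hk w b hw p
    exact ⟨F, hF, fun P hP => hF' P hP⟩

theorem result (M N r k h p : ℕ) (hM : 1 ≤ M) (hN : N = M + 2 ∨ N = M + 4) (hr : 1 ≤ r) (hk : k + r * M = 9)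
    (b : Fin r → ℕ) (w : Fin r → Fin N → ℕ) (hw : ∀ j i, w j i = b j ∨ w j i = b j + 1) :
    ∃ F : MvPolynomial (Fin (k + r * N + p) × Fin 2) ℂ, F ≠ 0 ∧ ∀ P : Fin (k + r * N + p) → Fin 2 → ℂ,
      eval (fun ij : Fin (k + r * N + p) × Fin 2 => P ij.1 ij.2) F ≠ 0 → ∀ d : ℕ,
        -- at least the degree `3 h`: the expected dimension
        ((∀ j, (N + 2 * ∑ i, w j i) ^ 2 ≤ M * N * (2 * h + 1) ^ 2) → 3 * h ≤ d →
          Module.finrank ℂ ↥(forms P (mult h w p) d) =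
            (d + 2).choose 2 - (k * (h + 1).choose 2 + ∑ j, ∑ i, (w j i + 1).choose 2 + p)) ∧
        -- at most the degree `3 h`: the expected dimension, or exactly one curve
        ((∀ j, M * N * (2 * h + 1) ^ 2 < (N + 2 * ∑ i, w j i) ^ 2) → d ≤ 3 * h →
          Module.finrank ℂ ↥(forms P (mult h w p) d) =
            (d + 2).choose 2 - (k * (h + 1).choose 2 + ∑ j, ∑ i, (w j i + 1).choose 2 + p) ∨
          (p = 0 ∧ Module.finrank ℂ ↥(forms P (mult h w p) d) = 1 ∧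
            (d + 2).choose 2 ≤ k * (h + 1).choose 2 + ∑ j, ∑ i, (w j i + 1).choose 2)) := by
  obtain ⟨r, rfl⟩ : ∃ r', r = r' + 1 := ⟨r - 1, by omega⟩
  have hk' : (r + 1) * M + k = 9 := by rw [Nat.add_comm]; exact hk
  -- the inequality in terms of the square root
  have hle : ∀ (x : ℝ), 0 ≤ x → (x ≤ √((M : ℝ) * (N : ℕ)) * (2 * h + 1) ↔ x ^ 2 ≤ M * N * (2 * h + 1) ^ 2) := by
    intro x hx
    have h0 : (0 : ℝ) ≤ √((M : ℝ) * (N : ℕ)) * (2 * h + 1) := by positivity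
    rw [← pow_le_pow_iff_left₀ hx h0 (two_ne_zero), mul_pow, Real.sq_sqrt (by positivity)]
  have hS : ∀ j, (0 : ℝ) ≤ N + 2 * ∑ i, (w j i : ℝ) := fun j => by positivity
  obtain ⟨F, hF, hF'⟩ := key hM hN hk' b w hw p (h := h)
  refine ⟨F.map (algebraMap ℚ ℂ), Pool.Agent.H932R3.map_ne_zero_of hF, fun P hP d => ?_⟩
  rw [eval_map] at hP
  obtain ⟨h1, h2⟩ := hF' P hP d
  refine ⟨fun hX hd => ?_, fun hX hd => ?_⟩
  · have h3 := h1 (fun j => (hle _ (hS j)).2 (by exact_mod_cast hX j)) hd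
    unfold Pool.Agent.H932R3.ExpDim at h3
    rw [sum_mult] at h3
    exact h3
  · have h3 := h2 (fun j => by
      rw [← not_le, hle _ (hS j), not_le]
      exact_mod_cast hX j) hd
    rcases h3 with h3 | ⟨hp, h3, h4⟩
    · left
      unfold Pool.Agent.H932R3.ExpDim at h3
      rw [sum_mult] at h3
      exact h3
    · right
      rw [sum_mult] at h4
      refine ⟨hp, h3, ?_⟩
      subst hp
      exact h4

end Pool.Agent.Results.MP_0f5763_ag.AnticanonicalGroups
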